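import Pool.Agent.Q224.HT.Algo

/-!
# The outcome problem of Hit is EXPTIME-complete

For each of the three outcomes, for all positions and for the positions with exactly `t` token
types, whatever `t ≥ 2` is.

Idea of the reduction (from alternating Boolean register machines).  One control token, of type 0,
one token of type 1 for each register and a dummy token of type 1 with exactly one move.  The token
of register `j` lives in its own region: `p0`, `p1` (the register holds 0 or 1; nim value 0), `q`
(lifted; nim value `2j+2`, by edges to the chain `d_0, ..., d_{2j+1}`).  The control token can leave
a control vertex to exits `e_k` (nim value `k`), but not to `e_1`, where 1 is the nim sum of the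
other tokens in all legal positions (and not to `e_{2j+3}` where register `j` may be lifted).  As
the values of the regions are pairwise different, every illegal move of a token makes the nim sum
equal to an allowed exit, and loses at once.  A wrong value (a violated guard, a wrong update) is
punished by hitting: the register token moves from `p0` or `p1` onto the control token, and the nim
sum becomes 0.  A violated guard is announced one move before, so that each control vertex can be
reached by at most one token of type 1.
-/

set_option autoImplicit false

namespace Pool.Agent.Results.MP_901ac1_lc.ExptimeComplete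

open Pool.Agent.NPC Pool.Agent.H820R2.SS Pool.Agent.Q224.HT

/-- Completeness for `EXPTIME` under polynomial-time many-one reductions. -/
def Complete (L : Set (List Bool)) : Prop :=
  InEXPTIME L ∧ ∀ L' : Set (List Bool), InEXPTIME L' → Reduces L' L

/-- The outcome problem: the positions with a number of token types in `T` that have the outcome
`W`. -/
def Outcome (W : Desc → Prop) (T : ℕ → Prop) : Set (List Bool) :=
  lang (fun D : Desc => IsPosition D ∧ T (types D) ∧ W D)

theorem not_inP {L : Set (List Bool)} (h : Complete L) : ¬ InP L := by
  intro hP
  obtain ⟨L', h1, h2⟩ := exists_exptime_not_p
  exact h2 (InP.of_reduces (h.2 L' h1) hP)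

/-- **Deciding the outcome of a Hit position is `EXPTIME`-complete**: for each of the three outcomes
(the player to move can force a win, the other player can, neither can), for all positions and for
the positions with exactly `t` token types, whatever `t ≥ 2` is. Hence none of these problems is in
`P`. -/
theorem result (W : Desc → Prop) (hW : W = MoverWins ∨ W = OtherWins ∨ W = Drawn) :
    Complete (Outcome W (fun _ => True)) ∧ ¬ InP (Outcome W (fun _ => True)) ∧
    ∀ t, 2 ≤ t → Complete (Outcome W (fun s => s = t)) ∧ ¬ InP (Outcome W (fun s => s = t)) := by
  have key : ∀ (T : ℕ → Prop) (q : Desc → Bool), NPC.Poly q → (∀ D, q D = true ↔ T (types D)) →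
      ∀ t, 2 ≤ t → T t → Complete (Outcome W T) := by
    intro T q hq hT t ht hTt
    have e : Outcome W T = lang (fun D : Desc => IsPosition D ∧ q D = true ∧ W D) :=
      lang_congr fun D => by rw [hT D]
    rw [e]
    exact ⟨(exp_of hW hq).inEXPTIME, fun L' hL' =>
      hard_of hW ht (fun D hD => (hT D).2 (hD ▸ hTt)) hL'⟩
  have h0 : Complete (Outcome W (fun _ => True)) :=
    key _ (fun _ => true) (NPC.Poly.const _) (fun _ => by simp) 2 le_rfl trivial
  refine ⟨h0, not_inP h0, fun t ht => ?_⟩
  have h1 : Complete (Outcome W (fun s => s = t)) :=
    key _ (fun D => decide (types D = t)) (by fun_prop) (fun D => by simp) t ht rfl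
  exact ⟨h1, not_inP h1⟩

end Pool.Agent.Results.MP_901ac1_lc.ExptimeComplete
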